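import Mathlib.Data.Matrix.Mul
import Mathlib.Data.Real.Basic

/-!
# Affine projections of polynomials: definitions

A polynomial in the variables `x₀, …, x_{n-1}` with integer coefficients is given by the list of its
terms; a term consists of its coefficient and of the list of the variables of the monomial (with
repetitions).
-/

namespace Pool.Agent.H728.AP

/-- The value of a polynomial. -/
def val {n : ℕ} (p : List (ℤ × List ℕ)) (x : Fin n → ℝ) : ℝ :=
  (p.map fun t => (t.1 : ℝ) * (t.2.map fun i => if h : i < n then x ⟨i, h⟩ else 0).prod).sum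

/-- An instance consists of the number `n` of variables (in unary) and of two polynomials `f`, `g`
in the variables `x₀, …, x_{n-1}`. -/
abbrev Inst : Type := List Unit × List (ℤ × List ℕ) × List (ℤ × List ℕ)

/-- Only the variables `x₀, …, x_{n-1}` occur in the polynomial. -/
def VarsLt (n : ℕ) (p : List (ℤ × List ℕ)) : Prop := ∀ t ∈ p, ∀ i ∈ t.2, i < n

/-- The strings of the right form. -/
def IsInst (I : Inst) : Prop := VarsLt I.1.length I.2.1 ∧ VarsLt I.1.length I.2.2

/-- `f(x) = g(A x + b)` for a real `n × n` matrix `A`, which need not be invertible, and a vector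
`b`. -/
def AffProj (I : Inst) : Prop :=
  ∃ (A : Matrix (Fin I.1.length) (Fin I.1.length) ℝ) (b : Fin I.1.length → ℝ),
    ∀ x : Fin I.1.length → ℝ, val I.2.1 x = val I.2.2 (A.mulVec x + b)

end Pool.Agent.H728.AP
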