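import Pool.Agent.H728.AP.Defs
import Pool.Agent.ER.Bounded
import Pool.Agent.ER.Hard
import Pool.Agent.ER.Dec

/-!
# Affine projections of polynomials: hardness
-/

namespace Pool.Agent.NPC.ER.AP

open Pool.Agent.NPC Pool.Agent.H728.AP

/-- The sign of a Boolean. -/
def sg (b : Bool) : ℤ := if b = true then -1 else 1

/-- The polynomial with the given terms, the coefficients being signs. -/
def pl (p : List (Bool × List ℕ)) : List (ℤ × List ℕ) := p.map fun t => (sg t.1, t.2)

/-- The terms of the polynomial of a constraint; the variables are renumbered by `r`. -/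
def cp (r : ℕ → ℕ) : Con → List (Bool × List ℕ)
  | Con.one i => [(false, [r i]), (true, [])]
  | Con.add i j k => [(false, [r i]), (false, [r j]), (true, [r k])]
  | Con.mul i j k => [(false, [r i, r j]), (true, [r k])]

/-- The product of two polynomials. -/
def pmul (p q : List (Bool × List ℕ)) : List (ℤ × List ℕ) :=
  p.flatMap fun s => q.map fun t => (sg (s.1 ^^ t.1), s.2 ++ t.2)

/-- The variable number of `i`. -/
def rn (S : List Con) (i : ℕ) : ℕ := (svars S).idxOf i + 1

/-- The polynomial `x₀² + ∑ e²`, the sum being over the constraints. -/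
def gp (S : List Con) : List (ℤ × List ℕ) :=
  (1, [0, 0]) :: S.flatMap fun c => pmul (cp (rn S) c) (cp (rn S) c)

/-- The polynomial `x₀²`. -/
def f0 : List (ℤ × List ℕ) := [(1, [0, 0])]

/-- The reduction. -/
def red (S : List Con) : Inst := (() :: (svars S).map (fun _ => ()), f0, gp S)

theorem length_red (S : List Con) : (red S).1.length = (svars S).length + 1 := by simp [red]

section

variable {n : ℕ}

/-- The value of a monomial. -/
noncomputable def mval (x : Fin n → ℝ) (l : List ℕ) : ℝ :=
  (l.map fun i => if h : i < n then x ⟨i, h⟩ else 0).prod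

theorem val_eq (p : List (ℤ × List ℕ)) (x : Fin n → ℝ) :
    val p x = (p.map fun t => (t.1 : ℝ) * mval x t.2).sum := rfl

theorem val_nil (x : Fin n → ℝ) : val [] x = 0 := rfl

theorem val_cons (t : ℤ × List ℕ) (p : List (ℤ × List ℕ)) (x : Fin n → ℝ) :
    val (t :: p) x = (t.1 : ℝ) * mval x t.2 + val p x := rfl

theorem val_append (p q : List (ℤ × List ℕ)) (x : Fin n → ℝ) :
    val (p ++ q) x = val p x + val q x := by
  simp [val_eq]

theorem sg_xor (b b' : Bool) : (sg (b ^^ b') : ℤ) = sg b * sg b' := by
  cases b <;> cases b' <;> rfl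

theorem val_pmul (p q : List (Bool × List ℕ)) (x : Fin n → ℝ) :
    val (pmul p q) x = val (pl p) x * val (pl q) x := by
  have h2 : ∀ (s : Bool × List ℕ) (q : List (Bool × List ℕ)),
      val (q.map fun t => (sg (s.1 ^^ t.1), s.2 ++ t.2)) x =
        (sg s.1 : ℝ) * mval x s.2 * val (pl q) x := by
    intro s q
    induction q with
    | nil => simp [val_nil, pl]
    | cons t q ihq =>
      have e : pl (t :: q) = (sg t.1, t.2) :: pl q := rfl
      rw [e, List.map_cons, val_cons, val_cons, ihq]
      have h3 : mval x (s.2 ++ t.2) = mval x s.2 * mval x t.2 := by simp [mval]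
      simp only [h3, sg_xor]
      push_cast
      ring
  induction p with
  | nil => simp [pmul, pl, val_nil]
  | cons s p ih =>
    have h1 : pmul (s :: p) q = (q.map fun t => (sg (s.1 ^^ t.1), s.2 ++ t.2)) ++ pmul p q := rfl
    have e : pl (s :: p) = (sg s.1, s.2) :: pl p := rfl
    rw [h1, val_append, h2, ih, e, val_cons]
    ring

theorem val_squares (S : List Con) (r : ℕ → ℕ) (x : Fin n → ℝ) :
    val (S.flatMap fun c => pmul (cp r c) (cp r c)) x =
      (S.map fun c => val (pl (cp r c)) x ^ 2).sum := by
  induction S with
  | nil => rfl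
  | cons c S ih =>
    simp only [List.flatMap_cons, List.map_cons, List.sum_cons, val_append, ih, val_pmul]
    ring

/-- The value of a variable. -/
noncomputable def vv (x : Fin n → ℝ) (i : ℕ) : ℝ := if h : i < n then x ⟨i, h⟩ else 0

theorem val_cp (r : ℕ → ℕ) (c : Con) (x : Fin n → ℝ) :
    val (pl (cp r c)) x = 0 ↔ c.Holds (fun i => vv x (r i)) := by
  cases c with
  | one i =>
    simp only [cp, pl, sg, val_cons, val_nil, mval, List.map_cons, List.map_nil, List.prod_cons,
      List.prod_nil, Con.Holds, vv, Bool.false_eq_true, if_false, if_true]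
    push_cast
    constructor <;> intro h <;> linarith
  | add i j k =>
    simp only [cp, pl, sg, val_cons, val_nil, mval, List.map_cons, List.map_nil, List.prod_cons,
      List.prod_nil, Con.Holds, vv, Bool.false_eq_true, if_false, if_true]
    push_cast
    constructor <;> intro h <;> linarith
  | mul i j k =>
    simp only [cp, pl, sg, val_cons, val_nil, mval, List.map_cons, List.map_nil, List.prod_cons,
      List.prod_nil, Con.Holds, vv, Bool.false_eq_true, if_false, if_true]
    push_cast
    constructor <;> intro h <;> linarith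

end

theorem sum_sq_nonneg {n : ℕ} (S : List Con) (r : ℕ → ℕ) (x : Fin n → ℝ) :
    0 ≤ (S.map fun c => val (pl (cp r c)) x ^ 2).sum := by
  apply List.sum_nonneg
  intro y hy
  obtain ⟨c, -, rfl⟩ := List.mem_map.1 hy
  exact sq_nonneg _

theorem sum_sq_eq_zero {n : ℕ} {S : List Con} {r : ℕ → ℕ} {x : Fin n → ℝ}
    (h : (S.map fun c => val (pl (cp r c)) x ^ 2).sum = 0) : ∀ c ∈ S, val (pl (cp r c)) x = 0 := by
  induction S with
  | nil => intro c hc; exact absurd hc (by simp)
  | cons d S ih =>
    simp only [List.map_cons, List.sum_cons] at h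
    have h1 := sum_sq_nonneg S r x
    have h2 := sq_nonneg (val (pl (cp r d)) x)
    have h3 : val (pl (cp r d)) x ^ 2 = 0 := by linarith
    have h4 : (S.map fun c => val (pl (cp r c)) x ^ 2).sum = 0 := by linarith
    intro c hc
    rcases List.mem_cons.1 hc with rfl | hc
    · exact pow_eq_zero_iff (two_ne_zero) |>.1 h3
    · exact ih h4 c hc

theorem rn_lt {S : List Con} {c : Con} (hc : c ∈ S) {i : ℕ} (hi : i ∈ c.vars) :
    rn S i < (red S).1.length := by
  rw [length_red]
  unfold rn
  have := List.idxOf_lt_length_of_mem (mem_svars hc hi)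
  omega

theorem isInst_red (S : List Con) : IsInst (red S) := by
  have h0 : 0 < (red S).1.length := by rw [length_red]; omega
  constructor
  · intro t ht i hi
    change t ∈ f0 at ht
    simp only [f0, List.mem_singleton] at ht
    subst ht
    simp only [List.mem_cons, List.not_mem_nil, or_false, or_self] at hi
    subst hi
    exact h0
  · intro t ht i hi
    change t ∈ gp S at ht
    unfold gp at ht
    rcases List.mem_cons.1 ht with rfl | ht
    · simp only [List.mem_cons, List.not_mem_nil, or_false, or_self] at hi
      subst hi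
      exact h0
    · obtain ⟨c, hc, ht⟩ := List.mem_flatMap.1 ht
      unfold pmul at ht
      obtain ⟨s, hs, ht⟩ := List.mem_flatMap.1 ht
      obtain ⟨u, hu, rfl⟩ := List.mem_map.1 ht
      have key : ∀ s ∈ cp (rn S) c, ∀ i ∈ s.2, i < (red S).1.length := by
        intro s hs i hi
        cases c with
        | one a =>
          simp only [cp, List.mem_cons, List.not_mem_nil, or_false] at hs
          rcases hs with rfl | rfl
          · simp only [List.mem_cons, List.not_mem_nil, or_false] at hi
            subst hi
            exact rn_lt hc (by simp [Con.vars])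
          · exact absurd hi (by simp)
        | add a b d =>
          simp only [cp, List.mem_cons, List.not_mem_nil, or_false] at hs
          rcases hs with rfl | rfl | rfl <;>
          · simp only [List.mem_cons, List.not_mem_nil, or_false] at hi
            subst hi
            exact rn_lt hc (by simp [Con.vars])
        | mul a b d =>
          simp only [cp, List.mem_cons, List.not_mem_nil, or_false] at hs
          rcases hs with rfl | rfl
          · simp only [List.mem_cons, List.not_mem_nil, or_false] at hi
            rcases hi with rfl | rfl <;> exact rn_lt hc (by simp [Con.vars])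
          · simp only [List.mem_cons, List.not_mem_nil, or_false] at hi
            subst hi
            exact rn_lt hc (by simp [Con.vars])
      rcases List.mem_append.1 hi with hi | hi
      · exact key s hs i hi
      · exact key u hu i hi

theorem affProj_of_sat {S : List Con} (h : Sat S) : AffProj (red S) := by
  obtain ⟨v, hv⟩ := h
  have h0 : 0 < (red S).1.length := by rw [length_red]; omega
  set z : Fin (red S).1.length := ⟨0, h0⟩ with hz
  refine ⟨Matrix.single z z 1, fun i => if (i : ℕ) = 0 then 0 else
    v ((svars S).getD ((i : ℕ) - 1) 0), fun x => ?_⟩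
  set w : Fin (red S).1.length → ℝ := (Matrix.single z z (1 : ℝ)).mulVec x + fun i : Fin _ =>
    if (i : ℕ) = 0 then 0 else v ((svars S).getD ((i : ℕ) - 1) 0) with hw
  have hw0 : vv w 0 = x z := by
    unfold vv
    rw [dif_pos h0, hw]
    simp [Matrix.mulVec, dotProduct, Matrix.single_apply, hz]
  have hwi : ∀ c ∈ S, ∀ i ∈ c.vars, vv w (rn S i) = v i := by
    intro c hc i hi
    unfold vv
    rw [dif_pos (rn_lt hc hi), hw]
    have h1 : (svars S).idxOf i < (svars S).length :=
      List.idxOf_lt_length_of_mem (mem_svars hc hi)
    have h2 : z ≠ ⟨rn S i, rn_lt hc hi⟩ := by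
      intro h
      have := congrArg Fin.val h
      simp [hz, rn] at this
    have h3 : (svars S).getD ((svars S).idxOf i) 0 = i := by
      rw [List.getD_eq_getElem _ _ h1]
      exact List.getElem_idxOf h1
    have h4 : ∀ j, Matrix.single z z (1 : ℝ) ⟨rn S i, rn_lt hc hi⟩ j = 0 := by
      intro j
      rw [Matrix.single_apply]
      exact if_neg fun h => h2 h.1
    simp only [Pi.add_apply, Matrix.mulVec, dotProduct, h4, zero_mul, Finset.sum_const_zero,
      zero_add]
    simp only [rn, Nat.add_eq_zero_iff, one_ne_zero, and_false, if_false, Nat.add_sub_cancel, h3]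
  change val f0 x = val (gp S) w
  have hz1 : ∀ y : Fin (red S).1.length → ℝ, mval y [0, 0] = vv y 0 * vv y 0 := by
    intro y
    simp [mval, vv]
  have hx0 : vv x 0 = x z := by
    unfold vv
    rw [dif_pos h0]
  have hzero : (S.map fun c => val (pl (cp (rn S) c)) w ^ 2).sum = 0 := by
    apply List.sum_eq_zero
    intro y hy
    obtain ⟨c, hc, rfl⟩ := List.mem_map.1 hy
    have : val (pl (cp (rn S) c)) w = 0 := by
      rw [val_cp]
      have h5 := hv c hc
      cases c with
      | one i =>
        simp only [Con.Holds] at h5 ⊢
        rw [hwi _ hc i (by simp [Con.vars])]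
        exact h5
      | add i j k =>
        simp only [Con.Holds] at h5 ⊢
        rw [hwi _ hc i (by simp [Con.vars]), hwi _ hc j (by simp [Con.vars]),
          hwi _ hc k (by simp [Con.vars])]
        exact h5
      | mul i j k =>
        simp only [Con.Holds] at h5 ⊢
        rw [hwi _ hc i (by simp [Con.vars]), hwi _ hc j (by simp [Con.vars]),
          hwi _ hc k (by simp [Con.vars])]
        exact h5
    rw [this]
    norm_num
  unfold f0 gp
  rw [val_cons, val_cons, val_nil, val_squares, hzero, hz1, hz1, hw0, hx0]

theorem sat_of_affProj {S : List Con} (h : AffProj (red S)) : Sat S := by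
  obtain ⟨A, b, hAb⟩ := h
  have h1 := hAb 0
  rw [Matrix.mulVec_zero, zero_add] at h1
  change val f0 (0 : Fin (red S).1.length → ℝ) = val (gp S) b at h1
  have h0 : 0 < (red S).1.length := by rw [length_red]; omega
  have hz1 : ∀ y : Fin (red S).1.length → ℝ, mval y [0, 0] = vv y 0 * vv y 0 := by
    intro y
    simp [mval, vv]
  unfold f0 gp at h1
  rw [val_cons, val_cons, val_nil, val_squares, hz1, hz1] at h1
  have h2 : vv (0 : Fin (red S).1.length → ℝ) 0 = 0 := by
    unfold vv
    rw [dif_pos h0]
    rfl
  rw [h2] at h1
  push_cast at h1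
  have h3 := sum_sq_nonneg S (rn S) b
  have h4 : 0 ≤ vv b 0 * vv b 0 := mul_self_nonneg _
  have h5 : (S.map fun c => val (pl (cp (rn S) c)) b ^ 2).sum = 0 := by linarith
  refine ⟨fun i => vv b (rn S i), fun c hc => ?_⟩
  rw [← val_cp]
  exact sum_sq_eq_zero h5 c hc

end Pool.Agent.NPC.ER.AP
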