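import Pool.Agent.H728.AP.Hard
import Pool.Agent.H612.OslpPoly

/-!
# Affine projections of polynomials: the reduction is computable in polynomial time
-/

namespace Pool.Agent.NPC.ER.AP

open Pool.Agent.NPC Pool.Agent.H728.AP

theorem cp_eq (r : ℕ → ℕ) (c : Con) : cp r c =
    if c.code.1 = 0 then [(false, [r c.code.2.1]), (true, [])] else
    if c.code.1 = 1 then
      [(false, [r c.code.2.1]), (false, [r c.code.2.2.1]), (true, [r c.code.2.2.2])] else
      [(false, [r c.code.2.1, r c.code.2.2.1]), (true, [r c.code.2.2.2])] := by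
  cases c <;> simp [cp, Con.code]

section

variable {α : Type} [TEnc α]

theorem poly_rn {S : α → List Con} {i : α → ℕ} (hS : Poly S) (hi : Poly i) :
    Poly (fun a => rn (S a) (i a)) :=
  Poly.succ (H612.poly_idxOf (Oslp.poly_svars hS) hi)

theorem poly_cp {S : α → List Con} {c : α → Con} (hS : Poly S) (hc : Poly c) :
    Poly (fun a => cp (rn (S a)) (c a)) := by
  have h0 : Poly (fun a => (c a).code) := poly_con_code hc
  have h1 : Poly (fun a => rn (S a) (c a).code.2.1) := poly_rn hS (Poly.fst (Poly.snd h0))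
  have h2 : Poly (fun a => rn (S a) (c a).code.2.2.1) :=
    poly_rn hS (Poly.fst (Poly.snd (Poly.snd h0)))
  have h3 : Poly (fun a => rn (S a) (c a).code.2.2.2) :=
    poly_rn hS (Poly.snd (Poly.snd (Poly.snd h0)))
  have s1 : ∀ {f : α → ℕ}, Poly f → Poly (fun a => [f a]) := fun hf => Poly.cons hf (Poly.const [])
  have p1 : ∀ {f : α → List ℕ}, Poly f → Poly (fun a => (false, f a)) :=
    fun hf => Poly.pair (Poly.const _) hf
  have p2 : ∀ {f : α → List ℕ}, Poly f → Poly (fun a => (true, f a)) :=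
    fun hf => Poly.pair (Poly.const _) hf
  refine Poly.congr (f := fun a =>
    if (c a).code.1 = 0 then [(false, [rn (S a) (c a).code.2.1]), (true, [])] else
    if (c a).code.1 = 1 then [(false, [rn (S a) (c a).code.2.1]),
      (false, [rn (S a) (c a).code.2.2.1]), (true, [rn (S a) (c a).code.2.2.2])] else
      [(false, [rn (S a) (c a).code.2.1, rn (S a) (c a).code.2.2.1]),
        (true, [rn (S a) (c a).code.2.2.2])]) ?_ fun a => (cp_eq _ _).symm
  refine Poly.ite (Poly.decide_eq (Poly.fst h0) (Poly.const 0)) ?_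
    (Poly.ite (Poly.decide_eq (Poly.fst h0) (Poly.const 1)) ?_ ?_)
  · exact Poly.cons (p1 (s1 h1)) (Poly.const _)
  · exact Poly.cons (p1 (s1 h1)) (Poly.cons (p1 (s1 h2)) (Poly.cons (p2 (s1 h3)) (Poly.const _)))
  · exact Poly.cons (p1 (Poly.cons h1 (s1 h2))) (Poly.cons (p2 (s1 h3)) (Poly.const _))

theorem poly_sg {b : α → Bool} (hb : Poly b) : Poly (fun a => sg (b a)) :=
  Poly.ite (Poly.decide_bool hb) (Poly.const _) (Poly.const _)

theorem poly_pmul {p q : α → List (Bool × List ℕ)} (hp : Poly p) (hq : Poly q) :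
    Poly (fun a => pmul (p a) (q a)) := by
  refine Poly.flatMap (F := fun (a : α) (s : Bool × List ℕ) =>
    (q a).map fun t => (sg (s.1 ^^ t.1), s.2 ++ t.2)) hp ?_
  refine Poly.map (F := fun (z : α × Bool × List ℕ) (t : Bool × List ℕ) =>
    (sg (z.2.1 ^^ t.1), z.2.2 ++ t.2)) (hq.comp (Poly.fst Poly.id)) ?_
  refine Poly.pair (poly_sg ?_) (Poly.append (Poly.snd (Poly.snd (Poly.fst Poly.id)))
    (Poly.snd (Poly.snd Poly.id)))
  exact Poly.xor (Poly.fst (Poly.snd (Poly.fst Poly.id))) (Poly.fst (Poly.snd Poly.id))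

end

theorem poly_gp : Poly gp := by
  refine Poly.cons (Poly.const _) (Poly.flatMap (F := fun (S : List Con) (c : Con) =>
    pmul (cp (rn S) c) (cp (rn S) c)) Poly.id ?_)
  have h := poly_cp (S := fun p : List Con × Con => p.1) (c := fun p => p.2)
    (Poly.fst Poly.id) (Poly.snd Poly.id)
  exact poly_pmul h h

theorem poly_red : Poly red :=
  Poly.pair (Poly.cons (Poly.const _) (Poly.map (F := fun _ _ => ())
    (Oslp.poly_svars Poly.id) (Poly.const _))) (Poly.pair (Poly.const _) poly_gp)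

/-- Hardness, even if `f` is the polynomial `x₀²`. -/
theorem hard_sq : ERHard (lang fun I : Inst => (IsInst I ∧ I.2.1 = f0) ∧ AffProj I) :=
  ERHard.of_sys poly_red fun S =>
    ⟨fun h => ⟨⟨isInst_red S, rfl⟩, affProj_of_sat h⟩, fun h => sat_of_affProj h.2⟩

/-- Hardness. -/
theorem hard : ERHard (lang fun I : Inst => IsInst I ∧ AffProj I) :=
  ERHard.of_sys poly_red fun S =>
    ⟨fun h => ⟨isInst_red S, affProj_of_sat h⟩, fun h => sat_of_affProj h.2⟩

end Pool.Agent.NPC.ER.AP
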